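import Pool.Agent.Q61.DP.Stm

/-!
# Project DP, job S_CLOSED: limits of singular points are singular points
-/

namespace Pool.Agent.Q176.DP

open Pool.Agent.Q61.DP Topology Filter Set Metric

/-- continuity of the angle along sequences and filters -/
theorem tendsto_angle {ι : Type*} {l : Filter ι} {x y : ι → E3} {a b : E3} (ha : a ≠ 0)
    (hb : b ≠ 0) (hx : Tendsto x l (𝓝 a)) (hy : Tendsto y l (𝓝 b)) :
    Tendsto (fun i => InnerProductGeometry.angle (x i) (y i)) l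
      (𝓝 (InnerProductGeometry.angle a b)) := by
  have h0 : ‖a‖ * ‖b‖ ≠ 0 := mul_ne_zero (norm_ne_zero_iff.2 ha) (norm_ne_zero_iff.2 hb)
  have h1 : Tendsto (fun i => inner ℝ (x i) (y i) / (‖x i‖ * ‖y i‖)) l
      (𝓝 (inner ℝ a b / (‖a‖ * ‖b‖))) := (hx.inner hy).div (hx.norm.mul hy.norm) h0
  exact (Real.continuous_arccos.tendsto _).comp h1

theorem ne_zero_of_norm {a : E3} (h : ‖a‖ = 1) : a ≠ 0 := by
  intro h0
  rw [h0, norm_zero] at h
  exact zero_ne_one h

/-- a boundary point of a cap is a limit of points of the cap -/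
theorem neBot_cap {n c : E3} {r : ℝ} (hn : ‖n‖ = 1) (hc : ‖c‖ = 1)
    (ha : InnerProductGeometry.angle c n = r) (hr : 0 < r) (hr2 : r ≤ Real.pi / 2) :
    (𝓝[capA n r] c).NeBot := by
  have hpi := Real.pi_pos
  have hcos : inner ℝ c n = Real.cos r := by
    have := InnerProductGeometry.cos_angle_mul_norm_mul_norm c n
    rw [hc, hn, ha] at this
    linarith
  have hcos0 : 0 ≤ Real.cos r := Real.cos_nonneg_of_mem_Icc ⟨by linarith, by linarith⟩
  have hcos1 : Real.cos r < 1 := by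
    have := Real.cos_lt_cos_of_nonneg_of_le_pi (le_refl (0 : ℝ)) (by linarith : r ≤ Real.pi) hr
    rwa [Real.cos_zero] at this
  set v : ℝ → E3 := fun t => (1 - t) • c + t • n with hv
  have hvin : ∀ t, inner ℝ (v t) n = (1 - t) * Real.cos r + t := by
    intro t
    simp only [hv, inner_add_left, real_inner_smul_left, hcos, real_inner_self_eq_norm_sq, hn]
    ring
  have hvle : ∀ t, 0 ≤ t → t ≤ 1 → ‖v t‖ ≤ 1 := by
    intro t h0 h1
    calc ‖v t‖ ≤ ‖(1 - t) • c‖ + ‖t • n‖ := norm_add_le _ _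
      _ = 1 := by
        rw [norm_smul, norm_smul, hc, hn, Real.norm_eq_abs, Real.norm_eq_abs,
          abs_of_nonneg (by linarith : 0 ≤ 1 - t), abs_of_nonneg h0]
        ring
  have hvpos : ∀ t, 0 < t → t ≤ 1 → 0 < ‖v t‖ := by
    intro t h0 h1
    rw [norm_pos_iff]
    intro h
    have h2 := hvin t
    rw [h, inner_zero_left] at h2
    nlinarith
  set w : ℝ → E3 := fun t => (‖v t‖)⁻¹ • v t with hw
  have hwc : Tendsto w (𝓝[>] 0) (𝓝 c) := by
    have hvc : Continuous v := by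
      simp only [hv]
      fun_prop
    have hv0 : v 0 = c := by simp [hv]
    have h1 : ContinuousAt w 0 := by
      refine ContinuousAt.smul (ContinuousAt.inv₀ hvc.norm.continuousAt ?_) hvc.continuousAt
      rw [hv0, hc]
      exact one_ne_zero
    have h2 : w 0 = c := by simp [hw, hv0, hc]
    have h3 := h1.tendsto
    rw [h2] at h3
    exact h3.mono_left nhdsWithin_le_nhds
  have hwm : ∀ᶠ t in 𝓝[>] (0 : ℝ), w t ∈ capA n r := by
    have h1 : ∀ᶠ t in 𝓝[>] (0 : ℝ), t < 1 :=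
      (tendsto_id.mono_left nhdsWithin_le_nhds).eventually_lt_const (zero_lt_one)
    filter_upwards [self_mem_nhdsWithin, h1] with t ht ht1
    have ht0 : 0 < t := ht
    have hp := hvpos t ht0 ht1.le
    have hnorm : ‖w t‖ = 1 := by
      simp only [hw]
      rw [norm_smul, norm_inv, norm_norm]
      exact inv_mul_cancel₀ hp.ne'
    refine ⟨hnorm, ?_⟩
    have h2 : inner ℝ (w t) n = (‖v t‖)⁻¹ * ((1 - t) * Real.cos r + t) := by
      simp only [hw, real_inner_smul_left, hvin]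
    have h3 : Real.cos r < inner ℝ (w t) n := by
      rw [h2, ← div_eq_inv_mul, lt_div_iff₀ hp]
      have := hvle t ht0.le ht1.le
      nlinarith
    unfold InnerProductGeometry.angle
    rw [hnorm, hn, mul_one, div_one, ← Real.arccos_cos hr.le (by linarith : r ≤ Real.pi)]
    have h4 : inner ℝ (w t) n ≤ 1 := by
      have := real_inner_le_norm (w t) n
      rwa [hnorm, hn, mul_one] at this
    exact Real.arccos_lt_arccos (by linarith) h3 h4
  have : Tendsto w (𝓝[>] 0) (𝓝[capA n r] c) := tendsto_nhdsWithin_iff.2 ⟨hwc, hwm⟩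
  exact this.neBot

/-- near a point of the sphere, in terms of the angle -/
theorem ev_angle {c c' : E3} {ε : ℝ} (hc : ‖c‖ = 1) (hc' : ‖c'‖ = 1)
    (h : InnerProductGeometry.angle c c' < ε) :
    ∀ᶠ p in 𝓝 c, InnerProductGeometry.angle p c' < ε :=
  (tendsto_angle (ne_zero_of_norm hc) (ne_zero_of_norm hc') tendsto_id
    tendsto_const_nhds).eventually_lt_const h

theorem closed (hU : S_UNIQ) (hC : S_CONV) (hR : S_RAD) (hT : S_TRI) (hG : S_REG) :
    S_CLOSED := by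
  intro P hP z c z₀ c₀ hz hc hS
  obtain ⟨hrc, hbr, hloc⟩ := hT P hP
  have hP' : LH P := hP
  obtain ⟨hPc, hP1, -⟩ := hP
  have hc1 : ‖c₀‖ = 1 := by
    have h1 : Tendsto (fun k => ‖c k‖) atTop (𝓝 ‖c₀‖) := hc.norm
    have h2 : (fun k => ‖c k‖) = fun _ => (1 : ℝ) := funext fun k => (hS k).1
    rw [h2] at h1
    exact (tendsto_nhds_unique h1 tendsto_const_nhds)
  have hPz : Tendsto (fun k => P (z k)) atTop (𝓝 (P z₀)) := (hPc.tendsto z₀).comp hz
  have hrz : Tendsto (fun k => rad P (z k)) atTop (𝓝 (rad P z₀)) := (hrc.tendsto z₀).comp hz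
  have hang : InnerProductGeometry.angle c₀ (P z₀) = rad P z₀ := by
    have h1 := tendsto_angle (ne_zero_of_norm hc1) (ne_zero_of_norm (hP1 z₀)) hc hPz
    have h2 : (fun k => InnerProductGeometry.angle (c k) (P (z k))) = fun k => rad P (z k) :=
      funext fun k => (hS k).2.1
    rw [h2] at h1
    exact tendsto_nhds_unique h1 hrz
  obtain ⟨hr0, hr1, g, hg, hgz⟩ := hR P hP' z₀
  refine ⟨hc1, hang, g, ⟨hg, hgz⟩, ?_⟩
  by_contra hnot
  obtain ⟨ε, hε, hε2, k, hk, hkg⟩ := hG P hP' (P z₀) c₀ (rad P z₀) g (hP1 z₀) hr0 hr1 hg hc1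
    hang hnot
  have hcap : ∀ᶠ p in 𝓝[capA (P z₀) (rad P z₀)] c₀,
      p ∈ capA (P z₀) (rad P z₀) ∧ InnerProductGeometry.angle p c₀ < ε := by
    have h1 : ∀ᶠ p in 𝓝 c₀, InnerProductGeometry.angle p c₀ < ε :=
      ev_angle hc1 hc1 (by rw [InnerProductGeometry.angle_self (ne_zero_of_norm hc1)]; exact hε)
    filter_upwards [self_mem_nhdsWithin, nhdsWithin_le_nhds h1] with p h2 h3 using ⟨h2, h3⟩
  have := neBot_cap (hP1 z₀) hc1 hang hr0 hr1
  obtain ⟨w, hw1, hw2⟩ := hcap.exists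
  have hw1' := hw1
  obtain ⟨hwn, hwa⟩ := hw1
  have hwc : w ∈ capA c₀ ε := ⟨hwn, hw2⟩
  -- conditions for large indices
  have e1 : ∀ᶠ j in atTop, P (z j) ∈ capA (P z₀) (rad P z₀) ∧ g (P (z j)) = z j :=
    hz.eventually (hloc z₀ g _ hg ⟨rad P z₀, hr0, Subset.rfl⟩ hgz)
  have e2 : ∀ᶠ j in atTop, InnerProductGeometry.angle w (P (z j)) < rad P (z j) := by
    have h1 := tendsto_angle (ne_zero_of_norm hwn) (ne_zero_of_norm (hP1 z₀))
      (tendsto_const_nhds (x := w) (f := (atTop : Filter ℕ))) hPz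
    exact h1.eventually_lt hrz hwa
  have e3 : ∀ᶠ j in atTop, InnerProductGeometry.angle (c j) c₀ < ε :=
    hc.eventually (ev_angle hc1 hc1
      (by rw [InnerProductGeometry.angle_self (ne_zero_of_norm hc1)]; exact hε))
  obtain ⟨j, ⟨h1, h2⟩, h3, h4⟩ := (e1.and (e2.and e3)).exists
  obtain ⟨hcj, hcja, gj, hgj, hgjt⟩ := hS j
  obtain ⟨hrj0, hrj1, -⟩ := hR P hP' (z j)
  -- the branch at `z j` agrees with `k`
  have h5 := (hbr z₀ g (P (z j)) ⟨hg, hgz⟩ h1).2.2 gj (by rw [h2]; exact hgj)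
  rw [h2] at h5
  have hwj : w ∈ capA (P (z j)) (rad P (z j)) := ⟨hwn, h3⟩
  have h6 : gj w = k w := by rw [h5 w ⟨hw1', hwj⟩, hkg w ⟨hw1', hwc⟩]
  have hpre : IsPreconnected (capA (P (z j)) (rad P (z j)) ∩ capA c₀ ε) := by
    have := hC (P (z j)) c₀ c₀ (rad P (z j)) ε ε hrj1 hε2 hε2
    rwa [inter_assoc, inter_self] at this
  have h7 := hU P hP' gj k _ hpre
    ⟨hgj.1.1.mono inter_subset_left, fun p hp => hgj.1.2 p hp.1⟩
    ⟨hk.1.mono inter_subset_right, fun p hp => hk.2 p hp.2⟩ ⟨w, ⟨hwj, hwc⟩, h6⟩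
  -- contradiction at `c j`
  have hcm : c j ∈ capA c₀ ε := ⟨hcj, h4⟩
  have := neBot_cap (hP1 (z j)) hcj hcja hrj0 hrj1
  have h8 : Tendsto k (𝓝[capA (P (z j)) (rad P (z j))] (c j)) (𝓝 (k (c j))) := by
    have h9 : 𝓝[capA (P (z j)) (rad P (z j))] (c j) ≤ 𝓝[capA c₀ ε] (c j) := by
      refine le_inf nhdsWithin_le_nhds ?_
      rw [le_principal_iff]
      filter_upwards [self_mem_nhdsWithin, nhdsWithin_le_nhds (ev_angle hcj hc1 h4)]
        with p hp hp2 using ⟨hp.1, hp2⟩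
    exact (hk.1 (c j) hcm).mono_left h9
  have h10 : Tendsto gj (𝓝[capA (P (z j)) (rad P (z j))] (c j)) (𝓝 (k (c j))) := by
    refine h8.congr' ?_
    filter_upwards [self_mem_nhdsWithin, nhdsWithin_le_nhds (ev_angle hcj hc1 h4)]
      with p hp hp2 using (h7 p ⟨hp, hp.1, hp2⟩).symm
  exact (h10.not_tendsto (disjoint_nhds_cocompact (k (c j)))) hgjt

end Pool.Agent.Q176.DP
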