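import Pool.Agent.Q61.DP.Stm

/-!
# Project DP, job S_KS: moving away from a singular point
-/

namespace Pool.Agent.Q176.DP

open Pool.Agent.Q61.DP Topology Filter Set Metric

theorem ks (hK : S_K1) (hNi : S_NOTIN) (hS : S_STAY) (hM : S_MV) : S_KS := by
  intro P hP hNP z g c τ hg hc hτ hτ2 hτ3
  have hpi := Real.pi_pos
  have hr : 0 < rad P z := by linarith
  obtain ⟨w, hw1, hw2, hw3⟩ := hK P hP hNP z g τ hg hτ hτ2 hτ3
  have hwc : w ∈ capA (P z) (rad P z) := ⟨hw1, by linarith⟩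
  have h1 := hNi P hP z g w c hg hwc hc
  have hang := hc.2.1
  obtain ⟨-, -, -, -, m5, -, m7⟩ := hM (P z) c (hP.2.1 z) hc.1 (by linarith) (by linarith)
  have hw : w = mv (P z) c τ := m7 τ w hτ.le (by linarith) hw1 hw2 (by linarith)
  have h2 := m5 τ hτ.le (by linarith)
  rw [← hw] at h2 ⊢
  have h3 : rad P (g w) = rad P z + τ := by linarith
  exact ⟨h3, hS P hP z g w c hg hwc hc (by linarith)⟩

end Pool.Agent.Q176.DP
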