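import Pool.Agent.Q61.DP.Stm

/-!
# Project DP, job S_NE: existence of a singular point on the boundary of a small cap
-/

namespace Pool.Agent.Q176.DP

open Pool.Agent.Q61.DP Topology Filter Set Metric

/-- the angle of unit vectors -/
theorem angle_unit {u v : E3} (hu : ‖u‖ = 1) (hv : ‖v‖ = 1) :
    InnerProductGeometry.angle u v = Real.arccos (inner ℝ u v) := by
  unfold InnerProductGeometry.angle
  rw [hu, hv, mul_one, div_one]

theorem angle_unit_self {u : E3} (hu : ‖u‖ = 1) : InnerProductGeometry.angle u u = 0 := by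
  rw [angle_unit hu hu, real_inner_self_eq_norm_sq, hu, one_pow, Real.arccos_one]

theorem ne (_hU : S_UNIQ) (_hC : S_CONV) (hR : S_RAD) (hG : S_GLUE) : S_NE := by
  intro P hP z hz
  by_contra hno
  push Not at hno
  obtain ⟨hr0, hr1, g, hg, hgz⟩ := hR P hP z
  set n := P z with hn
  set r := rad P z with hrdef
  have hn1 : ‖n‖ = 1 := hP.2.1 z
  have harc : ∀ x : E3, Continuous fun w : E3 => Real.arccos (inner ℝ w x) := by
    intro x
    exact Real.continuous_arccos.comp (continuous_id.inner continuous_const)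
  set K : Set E3 := {c | ‖c‖ = 1 ∧ Real.arccos (inner ℝ c n) = r} with hK
  have hKc : IsCompact K := by
    refine (isCompact_sphere (0 : E3) 1).of_isClosed_subset ?_ ?_
    · exact (isClosed_eq continuous_norm continuous_const).inter
        (isClosed_eq (harc n) continuous_const)
    · intro c hc
      rw [mem_sphere_zero_iff_norm]
      exact hc.1
  obtain ⟨ε, hε, g', hg', hgg⟩ := hG P hP n r g K hn1 hr0 hr1 hg hKc (by
    intro c hc
    have h1 : InnerProductGeometry.angle c n = r := by
      rw [angle_unit hc.1 hn1]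
      exact hc.2
    exact ⟨hc.1, h1, fun ht => hno c ⟨hc.1, h1, g, ⟨hg, hgz⟩, ht⟩⟩)
  -- points not covered
  set C : Set E3 := {w | (‖w‖ = 1 ∧ r ≤ Real.arccos (inner ℝ w n)) ∧
    ∀ c ∈ K, ε ≤ Real.arccos (inner ℝ w c)} with hC
  have hCc : IsCompact C := by
    refine (isCompact_sphere (0 : E3) 1).of_isClosed_subset ?_ ?_
    · refine ((isClosed_eq continuous_norm continuous_const).inter
        (isClosed_le continuous_const (harc n))).inter ?_
      have : {w : E3 | ∀ c ∈ K, ε ≤ Real.arccos (inner ℝ w c)} =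
          ⋂ c ∈ K, {w : E3 | ε ≤ Real.arccos (inner ℝ w c)} := by
        ext w
        simp
      change IsClosed {w : E3 | ∀ c ∈ K, ε ≤ Real.arccos (inner ℝ w c)}
      rw [this]
      exact isClosed_biInter fun c _ => isClosed_le continuous_const (harc c)
    · intro w hw
      rw [mem_sphere_zero_iff_norm]
      exact hw.1.1
  have key : ∃ r' : ℝ, r < r' ∧ r' ≤ Real.pi / 2 ∧
      capA n r' ⊆ capA n r ∪ ⋃ c ∈ K, capA c ε := by
    have hcov : ∀ m0 : ℝ, (∀ w ∈ C, m0 ≤ Real.arccos (inner ℝ w n)) →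
        capA n (min m0 (Real.pi / 2)) ⊆ capA n r ∪ ⋃ c ∈ K, capA c ε := by
      intro m0 hm w hw
      obtain ⟨hw1, hw2⟩ := hw
      by_contra hnot
      have h1 : w ∉ capA n r := fun h => hnot (Or.inl h)
      have h2 : r ≤ Real.arccos (inner ℝ w n) := by
        rw [← angle_unit hw1 hn1]
        by_contra h
        exact h1 ⟨hw1, not_le.1 h⟩
      have h3 : w ∈ C := by
        refine ⟨⟨hw1, h2⟩, fun c hc => ?_⟩
        rw [← angle_unit hw1 hc.1]
        by_contra h
        refine hnot (Or.inr ?_)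
        simp only [mem_iUnion]
        exact ⟨c, hc, hw1, not_le.1 h⟩
      have h4 := hm w h3
      rw [← angle_unit hw1 hn1] at h4
      have := min_le_left m0 (Real.pi / 2)
      linarith
    rcases C.eq_empty_or_nonempty with hE | hNe
    · refine ⟨min (Real.pi / 2) (Real.pi / 2), by rw [min_self]; exact hz, by rw [min_self], ?_⟩
      exact hcov _ (by rw [hE]; intro w hw; exact absurd hw (notMem_empty w))
    · obtain ⟨w0, hw0, hmin⟩ := hCc.exists_isMinOn hNe (harc n).continuousOn
      have h1 : r < Real.arccos (inner ℝ w0 n) := by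
        refine lt_of_le_of_ne hw0.1.2 fun h => ?_
        have h2 : w0 ∈ K := ⟨hw0.1.1, h.symm⟩
        have h3 := hw0.2 w0 h2
        rw [← angle_unit hw0.1.1 hw0.1.1, angle_unit_self hw0.1.1] at h3
        linarith
      refine ⟨min (Real.arccos (inner ℝ w0 n)) (Real.pi / 2), lt_min h1 hz, min_le_right _ _, ?_⟩
      exact hcov _ fun w hw => hmin hw
  obtain ⟨r', h1, h2, h3⟩ := key
  have hmem : r' ∈ RadSet P z := by
    refine ⟨by linarith, h2, g', ⟨hg'.1.mono h3, fun w hw => hg'.2 w (h3 hw)⟩, ?_⟩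
    rw [← hn, hgg n ⟨hn1, by rw [angle_unit_self hn1]; exact hr0⟩]
    exact hgz
  have h4 : r' ≤ rad P z := le_csSup ⟨Real.pi / 2, fun x hx => hx.2.1⟩ hmem
  rw [← hrdef] at h4
  linarith

end Pool.Agent.Q176.DP
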